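import Mathlib
import Pool.Agent.H389.Hyp

/-!
# Every point of the closure of `𝒰_hyp` is a limit direction (MP_de6c1e_al, Q2)

For every Lorentzian geometric Coxeter system `(W, S)_B` (reducible or not), every point of the
closure of the union `𝒰_hyp` of the projectivised unimodular subspaces of the hyperbolic elements
is a limit direction: `closure 𝒰_hyp ⊆ E_V`.  As `E_V ⊆ closure 𝒰_hyp` is known, this answers Q2
affirmatively.
-/

namespace Pool.Agent.Results.MP_de6c1e_al.ClosureOfUnimodular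

open Filter Topology
open scoped LinearAlgebra.Projectivization Matrix
open Pool.Agent.H389.Lorentz

set_option linter.unusedSectionVars false

/-! ### The definitions of the problem -/

variable {S : Type} [Fintype S] [DecidableEq S]

/-- The matrix `B_{st}` given by the Coxeter exponents `M` (Mathlib encodes `m_{st} = ∞` by
`0`) and the numbers `c_{st}`. -/
noncomputable def gram (M : CoxeterMatrix S) (c : S → S → ℝ) : Matrix S S ℝ :=
  Matrix.of fun s t => if M s t = 0 then -c s t else -Real.cos (Real.pi / M s t)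

/-- The bilinear form `ℬ` on `V = ℝ^S`. -/
noncomputable def form (M : CoxeterMatrix S) (c : S → S → ℝ) : LinearMap.BilinForm ℝ (S → ℝ) :=
  Matrix.toBilin' (gram M c)

/-- The simple root `α_s`: the simple roots are the standard basis of `V = ℝ^S`. -/
def simpleRoot (s : S) : S → ℝ := Pi.single s 1

/-- The numbers `c_{st}` are symmetric, and at least `1` where they are used. -/
structure IsGeometric (M : CoxeterMatrix S) (c : S → S → ℝ) : Prop where
  symm : ∀ s t, c s t = c t s
  one_le : ∀ s t, M s t = 0 → 1 ≤ c s t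

/-- The form `ℬ` has signature `(n - 1, 1)`. -/
def IsLorentzian (M : CoxeterMatrix S) (c : S → S → ℝ) : Prop :=
  ∃ (L : (S → ℝ) ≃ₗ[ℝ] (S → ℝ)) (s₀ : S), ∀ x,
    form M c x x = ∑ s, if s = s₀ then -(L x s) ^ 2 else (L x s) ^ 2

/-- The linear map `σ_α : x ↦ x - 2 (ℬ(x,α)/ℬ(α,α)) α`. -/
noncomputable def sigmaLin (M : CoxeterMatrix S) (c : S → S → ℝ) (α : S → ℝ) :
    (S → ℝ) →ₗ[ℝ] (S → ℝ) where
  toFun x := x - (2 * form M c x α / form M c α α) • α
  map_add' x y := by
    rw [map_add, LinearMap.add_apply, mul_add, add_div, add_smul]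
    abel
  map_smul' a x := by
    rw [map_smul, LinearMap.smul_apply, smul_eq_mul, RingHom.id_apply, smul_sub, smul_smul]
    congr 2
    ring

theorem sigmaLin_apply (M : CoxeterMatrix S) (c : S → S → ℝ) (α x : S → ℝ) :
    sigmaLin M c α x = x - (2 * form M c x α / form M c α α) • α := rfl

theorem sigmaLin_involutive (M : CoxeterMatrix S) (c : S → S → ℝ) (α : S → ℝ) :
    Function.Involutive (sigmaLin M c α) := by
  intro x
  rw [sigmaLin_apply, sigmaLin_apply]
  by_cases h : form M c α α = 0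
  · simp [h]
  · simp only [map_sub, map_smul, LinearMap.sub_apply, LinearMap.smul_apply, smul_eq_mul]
    rw [sub_sub, ← add_smul]
    have : 2 * form M c x α / form M c α α + 2 * (form M c x α -
        2 * form M c x α / form M c α α * form M c α α) / form M c α α = 0 := by
      field_simp
      ring
    rw [this, zero_smul, sub_zero]

/-- The reflection `σ_{α_s}` as an automorphism of `V`. -/
noncomputable def sigma (M : CoxeterMatrix S) (c : S → S → ℝ) (s : S) :
    (S → ℝ) ≃ₗ[ℝ] (S → ℝ) :=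
  LinearEquiv.ofInvolutive (sigmaLin M c (simpleRoot s)) (sigmaLin_involutive M c _)

/-- The (faithful) image of the Coxeter group `W` in `GL(V)`. -/
def W (M : CoxeterMatrix S) (c : S → S → ℝ) : Subgroup ((S → ℝ) ≃ₗ[ℝ] (S → ℝ)) :=
  Subgroup.closure (Set.range (sigma M c))

/-- The usual topology of the projective space `ℙ V`: the quotient topology of `V ∖ {0}`. -/
noncomputable instance projTop : TopologicalSpace (ℙ ℝ (S → ℝ)) :=
  TopologicalSpace.coinduced
    (fun v : {v : S → ℝ // v ≠ 0} => Projectivization.mk ℝ v.1 v.2) inferInstance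

/-- The action of an automorphism of `V` on `ℙ V`. -/
noncomputable def act (w : (S → ℝ) ≃ₗ[ℝ] (S → ℝ)) (p : ℙ ℝ (S → ℝ)) : ℙ ℝ (S → ℝ) :=
  Projectivization.map (w : (S → ℝ) →ₗ[ℝ] (S → ℝ)) w.injective p

/-- `p` is the limit of an injective sequence of points of the orbit `W · p₀`. -/
def IsLimitFrom (M : CoxeterMatrix S) (c : S → S → ℝ) (p₀ p : ℙ ℝ (S → ℝ)) : Prop :=
  ∃ y : ℕ → ℙ ℝ (S → ℝ), Function.Injective y ∧ (∀ k, ∃ w ∈ W M c, y k = act w p₀) ∧
    Tendsto y atTop (𝓝 p)

/-- The set `E_V` of the limit directions. -/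
def limitDirections (M : CoxeterMatrix S) (c : S → S → ℝ) : Set (ℙ ℝ (S → ℝ)) :=
  {p | ∃ p₀, IsLimitFrom M c p₀ p}

/-- `w` is hyperbolic: it has a (complex) eigenvalue of modulus `> 1`. -/
def IsHyperbolic (w : (S → ℝ) ≃ₗ[ℝ] (S → ℝ)) : Prop :=
  ∃ (μ : ℂ) (z : S → ℂ), 1 < ‖μ‖ ∧ z ≠ 0 ∧
    (LinearMap.toMatrix' (w : (S → ℝ) →ₗ[ℝ] (S → ℝ))).map (algebraMap ℝ ℂ) *ᵥ z = μ • z

/-- The unimodular subspace `U_w` of a hyperbolic `w`: the orthogonal complement of the
eigenvectors of the eigenvalues of modulus `≠ 1` (these are the non-zero multiples of two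
light-like vectors `x_w`, `y_w`, see `unimodular_eq`). -/
def unimodular (M : CoxeterMatrix S) (c : S → S → ℝ) (w : (S → ℝ) ≃ₗ[ℝ] (S → ℝ)) :
    Set (S → ℝ) :=
  {v | ∀ (x : S → ℝ) (a : ℝ), |a| ≠ 1 → w x = a • x → form M c v x = 0}

/-- The set `𝒰_hyp`: the union of the `ℙ U_w` over the hyperbolic `w ∈ W`. -/
def Uhyp (M : CoxeterMatrix S) (c : S → S → ℝ) : Set (ℙ ℝ (S → ℝ)) :=
  {p | ∃ w ∈ W M c, IsHyperbolic w ∧ ∃ (v : S → ℝ) (hv : v ≠ 0), v ∈ unimodular M c w ∧
    p = Projectivization.mk ℝ v hv}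

/-! ### The data of the abstract theorem -/

/-- The roots. -/
def roots (M : CoxeterMatrix S) (c : S → S → ℝ) : Set (S → ℝ) :=
  {x | ∃ w ∈ W M c, ∃ s, x = w (simpleRoot s)}

theorem form_root (M : CoxeterMatrix S) (c : S → S → ℝ) (s t : S) :
    form M c (simpleRoot s) (simpleRoot t) = gram M c s t := by
  simp [form, simpleRoot, Matrix.toBilin'_single]

theorem gram_self (M : CoxeterMatrix S) (c : S → S → ℝ) (s : S) : gram M c s s = 1 := by
  simp [gram]

theorem form_self (M : CoxeterMatrix S) (c : S → S → ℝ) (s : S) :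
    form M c (simpleRoot s) (simpleRoot s) = 1 := by
  rw [form_root, gram_self]

theorem sigma_apply (M : CoxeterMatrix S) (c : S → S → ℝ) (s : S) (x : S → ℝ) :
    sigma M c s x = x - (2 * form M c x (simpleRoot s)) • simpleRoot s := by
  show sigmaLin M c (simpleRoot s) x = _
  rw [sigmaLin_apply, form_self, div_one]

theorem form_symm {M : CoxeterMatrix S} {c : S → S → ℝ} (hg : IsGeometric M c) (x y : S → ℝ) :
    form M c x y = form M c y x := by
  simp only [form, Matrix.toBilin'_apply]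
  rw [Finset.sum_comm]
  refine Finset.sum_congr rfl fun s _ => Finset.sum_congr rfl fun t _ => ?_
  have : gram M c t s = gram M c s t := by
    simp only [gram, Matrix.of_apply, M.symmetric t s, hg.symm t s]
  rw [this]
  ring

theorem isLor {M : CoxeterMatrix S} {c : S → S → ℝ} (hg : IsGeometric M c)
    (hL : IsLorentzian M c) : IsLor (form M c) where
  symm := form_symm hg
  ex := by
    obtain ⟨L, s₀, hL⟩ := hL
    have hpol : ∀ x y, form M c x y = ∑ s, if s = s₀ then -(L x s * L y s) else L x s * L y s := by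
      intro x y
      have h1 := hL (x + y)
      have h2 : form M c (x + y) (x + y) = form M c x x + 2 * form M c x y + form M c y y := by
        simp only [map_add, LinearMap.add_apply, form_symm hg y x]
        ring
      rw [h2, hL x, hL y] at h1
      have h3 : ∑ s, (if s = s₀ then -(L (x + y) s) ^ 2 else (L (x + y) s) ^ 2) =
          (∑ s, if s = s₀ then -(L x s) ^ 2 else (L x s) ^ 2) +
          2 * (∑ s, if s = s₀ then -(L x s * L y s) else L x s * L y s) +
          ∑ s, if s = s₀ then -(L y s) ^ 2 else (L y s) ^ 2 := by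
        rw [Finset.mul_sum, ← Finset.sum_add_distrib, ← Finset.sum_add_distrib]
        refine Finset.sum_congr rfl fun s _ => ?_
        rw [map_add, Pi.add_apply]
        split_ifs <;> ring
      linarith
    refine ⟨L.symm (Pi.single s₀ 1), ?_, ?_⟩
    · rw [hL]
      have : ∑ s, (if s = s₀ then -(L (L.symm (Pi.single s₀ 1)) s) ^ 2 else
          (L (L.symm (Pi.single s₀ 1)) s) ^ 2) = -1 := by
        rw [Finset.sum_eq_single s₀]
        · simp
        · intro s _ hs
          simp [hs]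
        · simp
      rw [this]
      norm_num
    · intro x hx hx0
      have h1 : L x s₀ = 0 := by
        rw [hpol, Finset.sum_eq_single s₀] at hx
        · simpa using hx
        · intro s _ hs
          simp [hs]
        · simp
      have h2 : ∃ s, L x s ≠ 0 := by
        by_contra hcon
        push Not at hcon
        apply hx0
        rw [← LinearEquiv.map_eq_zero_iff L]
        ext s
        exact hcon s
      obtain ⟨s, hs⟩ := h2
      have hss : s ≠ s₀ := by
        rintro rfl
        exact hs h1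
      rw [hL]
      refine lt_of_lt_of_le (show (0 : ℝ) < (if s = s₀ then -(L x s) ^ 2 else (L x s) ^ 2) by
        rw [if_neg hss]; positivity) ?_
      refine Finset.single_le_sum (f := fun s => if s = s₀ then -(L x s) ^ 2 else (L x s) ^ 2)
        (fun t _ => ?_) (Finset.mem_univ s)
      split_ifs with h
      · rw [h, h1]
        norm_num
      · positivity

theorem sigma_isom {M : CoxeterMatrix S} {c : S → S → ℝ} (hg : IsGeometric M c) (s : S)
    (x y : S → ℝ) : form M c (sigma M c s x) (sigma M c s y) = form M c x y := by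
  rw [sigma_apply, sigma_apply]
  simp only [map_sub, map_smul, LinearMap.sub_apply, LinearMap.smul_apply, smul_eq_mul,
    form_self, form_symm hg (simpleRoot s) y]
  ring

theorem W_isom {M : CoxeterMatrix S} {c : S → S → ℝ} (hg : IsGeometric M c)
    {w : (S → ℝ) ≃ₗ[ℝ] (S → ℝ)} (hw : w ∈ W M c) :
    ∀ x y, form M c (w x) (w y) = form M c x y := by
  induction hw using Subgroup.closure_induction with
  | mem w hw =>
    obtain ⟨s, rfl⟩ := hw
    exact sigma_isom hg s
  | one => intro x y; rfl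
  | mul g h _ _ ihg ihh =>
    intro x y
    rw [LinearEquiv.mul_apply, LinearEquiv.mul_apply, ihg, ihh]
  | inv g _ ihg =>
    intro x y
    rw [← ihg]
    congr 2
    · rw [show g (g⁻¹ x) = x from LinearEquiv.apply_symm_apply g x]
    · exact LinearEquiv.apply_symm_apply g y

theorem rootData' {M : CoxeterMatrix S} {c : S → S → ℝ} (hg : IsGeometric M c) :
    RootData (form M c) (W M c) (roots M c) where
  isom w hw := W_isom hg hw
  one α hα := by
    obtain ⟨w, hw, s, rfl⟩ := hα
    rw [W_isom hg hw, form_self]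
  stab g hg' α hα := by
    obtain ⟨w, hw, s, rfl⟩ := hα
    exact ⟨g * w, (W M c).mul_mem hg' hw, s, rfl⟩
  refl α hα := by
    obtain ⟨w, hw, s, rfl⟩ := hα
    refine ⟨w * sigma M c s * w⁻¹, (W M c).mul_mem ((W M c).mul_mem hw
      (Subgroup.subset_closure ⟨s, rfl⟩)) ((W M c).inv_mem hw), fun x => ?_⟩
    have h1 : w (w⁻¹ x) = x := LinearEquiv.apply_symm_apply w x
    rw [LinearEquiv.mul_apply, LinearEquiv.mul_apply, sigma_apply, map_sub, map_smul, h1,
      ← W_isom hg hw (w⁻¹ x), h1]

theorem span_roots (M : CoxeterMatrix S) (c : S → S → ℝ) :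
    Submodule.span ℝ (roots M c) = ⊤ := by
  rw [eq_top_iff, ← (Pi.basisFun ℝ S).span_eq]
  refine Submodule.span_mono ?_
  rintro _ ⟨s, rfl⟩
  exact ⟨1, (W M c).one_mem, s, by simp [simpleRoot]⟩

theorem roots_finite (M : CoxeterMatrix S) (c : S → S → ℝ) :
    ∀ α ∈ roots M c, ∃ δ ∈ Finset.univ.image (simpleRoot (S := S)), ∃ g ∈ W M c, g δ = α := by
  rintro _ ⟨w, hw, s, rfl⟩
  exact ⟨simpleRoot s, Finset.mem_image_of_mem _ (Finset.mem_univ s), w, hw, rfl⟩

/-! ### Hyperbolic elements -/

/-- A hyperbolic element has two light-like eigenvectors with inverse eigenvalues. -/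
theorem exists_eig {M : CoxeterMatrix S} {c : S → S → ℝ} (hg : IsGeometric M c)
    (hL : IsLorentzian M c) {w : (S → ℝ) ≃ₗ[ℝ] (S → ℝ)} (hw : w ∈ W M c) (hh : IsHyperbolic w) :
    ∃ (x y : S → ℝ) (a : ℝ), 1 < |a| ∧ x ≠ 0 ∧ y ≠ 0 ∧ w x = a • x ∧ w y = a⁻¹ • y := by
  obtain ⟨μ, z, hμ, hz, hwz⟩ := hh
  have hB := isLor hg hL
  have hiso := W_isom hg hw
  set u : S → ℝ := fun s => (z s).re with hu
  set v : S → ℝ := fun s => (z s).im with hv
  have hmat : ∀ x : S → ℝ, w x = (LinearMap.toMatrix' (w : (S → ℝ) →ₗ[ℝ] (S → ℝ))) *ᵥ x := by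
    intro x
    exact (LinearMap.toMatrix'_mulVec (w : (S → ℝ) →ₗ[ℝ] (S → ℝ)) x).symm
  have hentry : ∀ s, ∑ t, ((LinearMap.toMatrix' (w : (S → ℝ) →ₗ[ℝ] (S → ℝ)) s t : ℝ) : ℂ) * z t
      = μ * z s := by
    intro s
    have := congrFun hwz s
    simpa [Matrix.mulVec, dotProduct] using this
  have h1 : w u = μ.re • u - μ.im • v := by
    ext s
    rw [hmat]
    have := congrArg Complex.re (hentry s)
    rw [Complex.re_sum] at this
    simp only [Complex.mul_re, Complex.ofReal_re, Complex.ofReal_im, zero_mul, sub_zero] at this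
    simpa [Matrix.mulVec, dotProduct, hu, hv] using this
  have h2 : w v = μ.im • u + μ.re • v := by
    ext s
    rw [hmat]
    have := congrArg Complex.im (hentry s)
    rw [Complex.im_sum] at this
    simp only [Complex.mul_im, Complex.ofReal_re, Complex.ofReal_im, zero_mul, add_zero] at this
    simp only [Matrix.mulVec, dotProduct, hv, hu, Pi.add_apply, Pi.smul_apply, smul_eq_mul]
    rw [this]
    ring
  have hpq : 1 < μ.re ^ 2 + μ.im ^ 2 := by
    have h3 : ‖μ‖ ^ 2 = μ.re ^ 2 + μ.im ^ 2 := by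
      rw [← Complex.normSq_eq_norm_sq, Complex.normSq_apply]
      ring
    rw [← h3]
    nlinarith
  have huv : ¬ (u = 0 ∧ v = 0) := by
    rintro ⟨h3, h4⟩
    apply hz
    ext s
    exact Complex.ext (congrFun h3 s) (congrFun h4 s)
  obtain ⟨x, hx0, ha, hx⟩ := real_eig hB hiso hpq huv h1 h2
  have ha0 : μ.re ≠ 0 := by
    intro h
    rw [h] at ha
    norm_num at ha
  obtain ⟨y, hy0, hy⟩ := inv_eig hB hiso ha0 hx0 hx
  exact ⟨x, y, μ.re, ha, hx0, hy0, hx, hy⟩

/-- The unimodular subspace of a hyperbolic element is the orthogonal complement of two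
light-like vectors `x_w`, `y_w`, which span the eigenspaces of two inverse real eigenvalues. -/
theorem unimodular_eq {M : CoxeterMatrix S} {c : S → S → ℝ} (hg : IsGeometric M c)
    (hL : IsLorentzian M c) {w : (S → ℝ) ≃ₗ[ℝ] (S → ℝ)} (hw : w ∈ W M c) (hh : IsHyperbolic w) :
    ∃ (x y : S → ℝ) (a : ℝ), 1 < |a| ∧ x ≠ 0 ∧ y ≠ 0 ∧ w x = a • x ∧ w y = a⁻¹ • y ∧
      form M c x x = 0 ∧ form M c y y = 0 ∧ form M c x y ≠ 0 ∧
      unimodular M c w = {v | form M c v x = 0 ∧ form M c v y = 0} := by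
  obtain ⟨x, y, a, ha, hx0, hy0, hx, hy⟩ := exists_eig hg hL hw hh
  have hB := isLor hg hL
  have hiso := W_isom hg hw
  obtain ⟨hxx, hyy, hxy⟩ := eig_pair hB hiso ha hx0 hx hy0 hy
  refine ⟨x, y, a, ha, hx0, hy0, hx, hy, hxx, hyy, hxy, ?_⟩
  have ha0 : a ≠ 0 := by
    rintro rfl
    norm_num at ha
  have ha1 : |a| ≠ 1 := ha.ne'
  have ha2 : |a⁻¹| ≠ 1 := by
    rw [abs_inv]
    intro h
    exact ha1 (inv_eq_one.1 h)
  ext v
  constructor
  · intro hv
    exact ⟨hv x a ha1 hx, hv y a⁻¹ ha2 hy⟩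
  · rintro ⟨hvx, hvy⟩ z b hb hz
    by_cases hz0 : z = 0
    · rw [hz0, map_zero]
    have hb2 : b ^ 2 ≠ 1 := by
      intro h
      apply hb
      rw [← sq_abs] at h
      nlinarith [abs_nonneg b]
    have hzz := eig_light hiso hb2 hz
    -- `z` is proportional to `x` or to `y`
    have h1 := hiso z x
    have h2 := hiso z y
    rw [hz, hx] at h1
    rw [hz, hy] at h2
    simp only [map_smul, LinearMap.smul_apply, smul_eq_mul] at h1 h2
    by_cases h3 : form M c z x = 0
    · obtain ⟨t, ht⟩ := hB.prop hx0 hxx hzz h3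
      rw [ht, map_smul, hvx, smul_zero]
    · by_cases h4 : form M c z y = 0
      · obtain ⟨t, ht⟩ := hB.prop hy0 hyy hzz h4
        rw [ht, map_smul, hvy, smul_zero]
      · exfalso
        have e1 : a * b = 1 := by
          have : (a * b - 1) * form M c z x = 0 := by linarith
          linarith [(mul_eq_zero.1 this).resolve_right h3]
        have e2 : a⁻¹ * b = 1 := by
          have : (a⁻¹ * b - 1) * form M c z y = 0 := by linarith
          linarith [(mul_eq_zero.1 this).resolve_right h4]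
        have e3 : b = a := by
          rw [inv_mul_eq_iff_eq_mul₀ ha0, mul_one] at e2
          exact e2
        rw [e3] at e1
        have : |a| * |a| = 1 := by rw [← abs_mul, e1, abs_one]
        nlinarith

theorem unimodular_subset {M : CoxeterMatrix S} {c : S → S → ℝ} (hg : IsGeometric M c)
    (hL : IsLorentzian M c) {w : (S → ℝ) ≃ₗ[ℝ] (S → ℝ)} (hw : w ∈ W M c) (hh : IsHyperbolic w)
    {v : S → ℝ} (hv : v ∈ unimodular M c w) : v ∈ UU (form M c) (roots M c) := by
  obtain ⟨x, y, a, ha, hx0, hy0, hx, hy, hxx, hyy, hxy, hU⟩ := unimodular_eq hg hL hw hh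
  rw [hU] at hv
  have hB := isLor hg hL
  have hD := rootData' hg
  have hs := span_roots M c
  refine ⟨x, eig_mem_Lam hB hD hs hw ha hx0 hx hy0 hy, y, ?_, hxy, hv.1, hv.2⟩
  have ha0 : a ≠ 0 := by
    rintro rfl
    norm_num at ha
  have hinv : ∀ (z : S → ℝ) (b : ℝ), b ≠ 0 → w z = b • z → w⁻¹ z = b⁻¹ • z := by
    intro z b hb hz
    have h1 : w⁻¹ (w z) = z := LinearEquiv.symm_apply_apply w z
    rw [hz, map_smul] at h1
    rw [← h1, smul_smul, inv_mul_cancel₀ hb, one_smul, h1]
  have h1 := hinv x a ha0 hx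
  have h2 := hinv y a⁻¹ (inv_ne_zero ha0) hy
  rw [inv_inv] at h2
  exact eig_mem_Lam hB hD hs ((W M c).inv_mem hw) ha hy0 h2 hx0 h1

/-! ### The projective space -/

theorem continuous_mk : Continuous fun v : {v : S → ℝ // v ≠ 0} => Projectivization.mk ℝ v.1 v.2 :=
  continuous_coinduced_rng

theorem isOpen_image {N : Set (S → ℝ)} (hN : IsOpen N) :
    IsOpen {p : ℙ ℝ (S → ℝ) | ∃ (u : S → ℝ) (hu : u ≠ 0), u ∈ N ∧
      p = Projectivization.mk ℝ u hu} := by
  rw [isOpen_coinduced]
  have : (fun v : {v : S → ℝ // v ≠ 0} => Projectivization.mk ℝ v.1 v.2) ⁻¹'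
      {p : ℙ ℝ (S → ℝ) | ∃ (u : S → ℝ) (hu : u ≠ 0), u ∈ N ∧ p = Projectivization.mk ℝ u hu} =
      ⋃ a : ℝˣ, {v : {v : S → ℝ // v ≠ 0} | (a : ℝ) • (v : S → ℝ) ∈ N} := by
    ext ⟨v, hv⟩
    simp only [Set.mem_preimage, Set.mem_ofPred_eq, Set.mem_iUnion]
    constructor
    · rintro ⟨u, hu, huN, h⟩
      obtain ⟨a, ha⟩ := (Projectivization.mk_eq_mk_iff ℝ v u hv hu).1 h
      refine ⟨a⁻¹, ?_⟩
      rw [← ha]
      have : ((a⁻¹ : ℝˣ) : ℝ) • (a • u) = u := by
        rw [Units.smul_def, smul_smul, Units.inv_mul, one_smul]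
      rwa [this]
    · rintro ⟨a, ha⟩
      refine ⟨(a : ℝ) • v, smul_ne_zero a.ne_zero hv, ha, ?_⟩
      rw [Projectivization.mk_eq_mk_iff]
      refine ⟨a⁻¹, ?_⟩
      rw [Units.smul_def, smul_smul, Units.inv_mul, one_smul]
  rw [this]
  refine isOpen_iUnion fun a => hN.preimage ?_
  fun_prop

theorem mem_closure_UU {M : CoxeterMatrix S} {c : S → S → ℝ} (hg : IsGeometric M c)
    (hL : IsLorentzian M c) {v : S → ℝ} (hv : v ≠ 0)
    (h : Projectivization.mk ℝ v hv ∈ closure (Uhyp M c)) :
    v ∈ closure (UU (form M c) (roots M c)) := by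
  rw [mem_closure_iff]
  intro N hN hvN
  obtain ⟨p, ⟨u, hu, huN, hpu⟩, ⟨w, hw, hh, v', hv', hv'U, hpv'⟩⟩ :=
    mem_closure_iff.1 h _ (isOpen_image hN) ⟨v, hv, hvN, rfl⟩
  refine ⟨u, huN, ?_⟩
  obtain ⟨a, ha⟩ := (Projectivization.mk_eq_mk_iff ℝ u v' hu hv').1 (hpu.symm.trans hpv')
  obtain ⟨ζ, hζ, η, hη, hζη, h1, h2⟩ := unimodular_subset hg hL hw hh hv'U
  refine ⟨ζ, hζ, η, hη, hζη, ?_, ?_⟩
  · rw [← ha, Units.smul_def, map_smul, LinearMap.smul_apply, h1, smul_zero]
  · rw [← ha, Units.smul_def, map_smul, LinearMap.smul_apply, h2, smul_zero]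

/-- From approximation by vectors to injective sequences of directions. -/
theorem isLimitFrom_of {M : CoxeterMatrix S} {c : S → S → ℝ} {v p : S → ℝ} (hv : v ≠ 0)
    (hp : p ≠ 0) (h : ∀ ε > 0, ∃ g ∈ W M c, ∃ t : ℝ, ‖t • g p - v‖ < ε ∧
      g p ∉ Submodule.span ℝ {v}) :
    IsLimitFrom M c (Projectivization.mk ℝ p hp) (Projectivization.mk ℝ v hv) := by
  have h1 : ∀ k : ℕ, ∃ g ∈ W M c, ∃ t : ℝ, ‖t • g p - v‖ < 1 / ((k : ℝ) + 1) ∧
      g p ∉ Submodule.span ℝ {v} := fun k => h _ (by positivity)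
  choose g hg t ht hgp using h1
  have hlim : Tendsto (fun k => t k • g k p) atTop (𝓝 v) := by
    have h2 : Tendsto (fun k => t k • g k p - v) atTop (𝓝 0) := by
      rw [tendsto_zero_iff_norm_tendsto_zero]
      exact squeeze_zero (fun k => norm_nonneg _) (fun k => (ht k).le)
        tendsto_one_div_add_atTop_nhds_zero_nat
    have := h2.add_const v
    simpa using this
  have hgp0 : ∀ k, g k p ≠ 0 := fun k => by simpa using hp
  -- the directions
  set z : ℕ → ℙ ℝ (S → ℝ) := fun k => Projectivization.mk ℝ (g k p) (hgp0 k) with hz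
  have hzfin : ∀ j, {k | z k = z j}.Finite := by
    intro j
    by_contra hinf
    have hinf' : {k | z k = z j}.Infinite := hinf
    have hfr : ∃ᶠ k in atTop, z k = z j := Nat.frequently_atTop_iff_infinite.2 hinf'
    have hcl : IsClosed (Submodule.span ℝ {g j p} : Set (S → ℝ)) :=
      Submodule.closed_of_finiteDimensional _
    have hmem : ∃ᶠ k in atTop, t k • g k p ∈ (Submodule.span ℝ {g j p} : Set (S → ℝ)) := by
      refine hfr.mono fun k hk => ?_
      obtain ⟨a, ha⟩ := (Projectivization.mk_eq_mk_iff ℝ _ _ (hgp0 k) (hgp0 j)).1 hk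
      rw [← ha, Units.smul_def, smul_smul]
      exact Submodule.smul_mem _ _ (Submodule.mem_span_singleton_self _)
    have hvmem : v ∈ (Submodule.span ℝ {g j p} : Set (S → ℝ)) := by
      by_contra hnot
      have := hlim.eventually (hcl.isOpen_compl.mem_nhds hnot)
      obtain ⟨k, hk1, hk2⟩ := (hmem.and_eventually this).exists
      exact hk2 hk1
    obtain ⟨a, ha⟩ := Submodule.mem_span_singleton.1 hvmem
    have ha0 : a ≠ 0 := by
      rintro rfl
      exact hv (by rw [← ha, zero_smul])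
    apply hgp j
    refine Submodule.mem_span_singleton.2 ⟨a⁻¹, ?_⟩
    rw [← ha, smul_smul, inv_mul_cancel₀ ha0, one_smul]
  have hrange : (Set.range z).Infinite := by
    intro hfin
    have : (Set.univ : Set ℕ).Finite := by
      have h2 : (Set.univ : Set ℕ) ⊆ ⋃ q ∈ Set.range z, {k | z k = q} := by
        intro k _
        exact Set.mem_biUnion ⟨k, rfl⟩ rfl
      refine (hfin.biUnion ?_).subset h2
      rintro _ ⟨j, rfl⟩
      exact hzfin j
    exact Set.infinite_univ this
  have := hrange.to_subtype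
  let ι : ℕ ↪ Set.range z := Infinite.natEmbedding _
  choose φ hφ using fun n => (ι n).2
  have hφinj : Function.Injective φ := by
    intro a b hab
    apply ι.injective
    ext
    rw [← hφ a, ← hφ b, hab]
  have hφlim : Tendsto φ atTop atTop := hφinj.nat_tendsto_atTop
  refine ⟨fun n => z (φ n), ?_, fun n => ⟨g (φ n), hg _, ?_⟩, ?_⟩
  · intro a b hab
    apply ι.injective
    ext
    rw [← hφ a, ← hφ b]
    exact hab
  · rw [hz, act, Projectivization.map_mk]
    rfl
  · have hzlim : Tendsto z atTop (𝓝 (Projectivization.mk ℝ v hv)) := by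
      have hne : ∀ᶠ k in atTop, t k • g k p ≠ 0 := hlim.eventually_ne hv
      let y : ℕ → {v : S → ℝ // v ≠ 0} := fun k =>
        if hk : t k • g k p ≠ 0 then ⟨t k • g k p, hk⟩ else ⟨v, hv⟩
      have hy : Tendsto y atTop (𝓝 ⟨v, hv⟩) := by
        rw [tendsto_subtype_rng]
        refine hlim.congr' ?_
        filter_upwards [hne] with k hk
        simp only [y]
        rw [dif_pos hk]
      have h3 := (continuous_mk.tendsto ⟨v, hv⟩).comp hy
      refine h3.congr' ?_
      filter_upwards [hne] with k hk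
      have hyk : y k = ⟨t k • g k p, hk⟩ := dif_pos hk
      show Projectivization.mk ℝ (y k).1 (y k).2 = _
      rw [hz, Projectivization.mk_eq_mk_iff']
      exact ⟨t k, by rw [hyk]⟩
    exact hzlim.comp hφlim

/-- **Every point of the closure of `𝒰_hyp` is a limit direction**, for every Lorentzian
geometric Coxeter system. -/
theorem result (M : CoxeterMatrix S) (c : S → S → ℝ) (hg : IsGeometric M c)
    (hL : IsLorentzian M c) : closure (Uhyp M c) ⊆ limitDirections M c := by
  intro p hp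
  induction p using Projectivization.ind with
  | h v hv =>
    have h1 := mem_closure_UU hg hL hv hp
    obtain ⟨p, hp0, h2⟩ := main_abs (isLor hg hL) (rootData' hg) (roots_finite M c) hv h1
    exact ⟨_, isLimitFrom_of hv hp0 h2⟩

end Pool.Agent.Results.MP_de6c1e_al.ClosureOfUnimodular
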